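import Pool.Agent.Helper89.Vol.Goals

set_option autoImplicit false

/-! # Project V36 (MP_cd13d2_co): packet JA1 -/

namespace Pool.Agent.Helper79.Vol.PkJA1

open Pool.Agent.Helper89.Vol

theorem thm : G_JA1 := by
  intro N k M g1 g2 S hN0 hN1 hk hM hg1 hg2 hS h1 h2 h3 h4
  set M0 : ℝ := √(3 / 4 - N ^ 2) with hM0
  have hpos : 0 < 3 / 4 - N ^ 2 := by nlinarith
  have hM0pos : 0 < M0 := Real.sqrt_pos.2 hpos
  have hM0sq : M0 ^ 2 = 3 / 4 - N ^ 2 := Real.sq_sqrt hpos.le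
  have hkN : 0 ≤ k * N := mul_nonneg hk hN0
  have hMsq : M ^ 2 ≤ M0 ^ 2 - 2 * (k * N) := by nlinarith [sq_nonneg k]
  have hb : 0 ≤ M0 ^ 2 - k * N := by nlinarith [sq_nonneg M]
  have hMM : M * M0 ≤ M0 ^ 2 - k * N := by
    refine abs_le_of_sq_le_sq' ?_ hb |>.2
    have h5 : (M * M0) ^ 2 ≤ (M0 ^ 2 - 2 * (k * N)) * M0 ^ 2 := by
      rw [mul_pow]
      exact mul_le_mul_of_nonneg_right hMsq (sq_nonneg _)
    nlinarith [sq_nonneg (k * N)]
  have h6 : k * g2 + M * g1 ≤ M0 * g1 := by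
    have h7 : k * (M0 * g2) ≤ k * (N * g1) := mul_le_mul_of_nonneg_left h4 hk
    have h8 : M * M0 * g1 ≤ (M0 ^ 2 - k * N) * g1 := mul_le_mul_of_nonneg_right hMM hg1
    have h9 : (k * g2 + M * g1) * M0 ≤ (M0 * g1) * M0 := by nlinarith
    exact le_of_mul_le_mul_right h9 hM0pos
  have h10 : S ≤ √(4 - (g1 + 2 * N) ^ 2) := by
    apply Real.le_sqrt_of_sq_le
    nlinarith [sq_nonneg g2]
  have h11 := mul_le_mul_of_nonneg_left h10 hN0
  linarith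

end Pool.Agent.Helper79.Vol.PkJA1
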